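import Pool.Agent.K7.H12.GL.Base

/-!
# Project GL, job CASE2: the chains of the points of a line and the gluing
-/

set_option autoImplicit false

namespace Pool.Agent.K7.H56.GL

open Pool.Agent.K7.H12.GL

variable {L : Type} [CompleteLattice L] {ρ : L → ℕ}

/-- the points off the line `l` -/
def YY (A : Set L) (l : L) : Set L := {x | x ∈ A ∧ ¬ x ≤ l}

/-- the points of the line `l` which are spanned by points off `l` that do not span `l` -/
def XX (a : L) (A : Set L) (l : L) : Set L :=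
  {x | x ∈ A ∧ x ≤ l ∧ ∃ Z : Finset L, (Z : Set L) ⊆ YY A l ∧ x ≤ a ⊔ sSup (Z : Set L) ∧
    ¬ l ≤ a ⊔ sSup (Z : Set L)}

/-- the small set of points -/
def EE (a : L) (A : Set L) (p q : L) : Set L := YY A (p ⊔ q) ∪ XX a A (p ⊔ q) ∪ {p, q}

theorem EE_sub {a : L} {A : Set L} {p q : L} (hp : p ∈ A) (hq : q ∈ A) : EE a A p q ⊆ A := by
  rintro x ((h | h) | h)
  · exact h.1
  · exact h.1
  · rcases h with rfl | h
    · exact hp
    · rw [Set.mem_singleton_iff.1 h]; exact hq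

theorem Sp_mono {a : L} {A E : Set L} (h : E ⊆ A) : Sp a E ⊆ Sp a A := by
  rintro b ⟨W, hW, rfl⟩
  exact ⟨W, hW.trans h, rfl⟩

theorem tp_EE {a : L} {A : Set L} {p q : L} (hp : p ∈ A) (hq : q ∈ A) :
    tp a (EE a A p q) = tp a A := by
  refine le_antisymm (sup_le_sup le_rfl (sSup_le_sSup (EE_sub hp hq))) ?_
  refine sup_le le_sup_left (sSup_le fun w hw => ?_)
  refine le_sup_of_le_right ?_
  by_cases h : w ≤ p ⊔ q
  · refine h.trans (sup_le (le_sSup ?_) (le_sSup ?_))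
    · exact Or.inr (Or.inl rfl)
    · exact Or.inr (Or.inr rfl)
  · exact le_sSup (Or.inl (Or.inl ⟨hw, h⟩))

/-- two different points span an element of rank two -/
theorem rank_two (hG : Geo L ρ) {a : L} {A : Set L} (hA : ∀ p ∈ A, a ⋖ p) {x y : L} (hx : x ∈ A)
    (hy : y ∈ A) (h : x ≠ y) : ρ (x ⊔ y) = ρ a + 2 := by
  have h1 : ¬ y ≤ x := fun h1 => h (eq_of_le_point a (hA x hx) (hA y hy) h1).symm
  have h2 := hG.cov _ _ (hG.semi a y x (hA y hy) (hA x hx).le h1)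
  have h3 := hG.cov _ _ (hA x hx)
  omega

theorem two_points (hG : Geo L ρ) {a : L} {A : Set L} (hA : ∀ p ∈ A, a ⋖ p) {p q x y : L}
    (hp : p ∈ A) (hq : q ∈ A) (hpq : p ≠ q) (hx : x ∈ A) (hy : y ∈ A) (h : x ≠ y)
    (hxl : x ≤ p ⊔ q) (hyl : y ≤ p ⊔ q) : x ⊔ y = p ⊔ q := by
  have h1 := rank_two hG hA hp hq hpq
  have h2 := rank_two hG hA hx hy h
  rcases (sup_le hxl hyl).lt_or_eq with h3 | h3
  · have := hG.mono h3
    omega
  · exact h3

theorem covby_of_rank (hG : Geo L ρ) {x y : L} (h : x < y) (hr : ρ y = ρ x + 1) : x ⋖ y := by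
  refine ⟨h, fun z h1 h2 => ?_⟩
  have h3 := hG.mono h1
  have h4 := hG.mono h2
  omega

/-- the chain -/
def Hc (y : ℕ → L) (x : L) : ℕ → L
  | 0 => x
  | j + 1 => Hc y x j ⊔ y j

theorem exH (hG : Geo L ρ) (hB : Base L ρ) {a : L} {A : Set L} (hA : ∀ p ∈ A, a ⋖ p)
    (h3 : ρ a + 3 ≤ ρ (tp a A)) {p q : L} (hp : p ∈ A) (hq : q ∈ A) (hpq : p ≠ q) :
    ∃ H : L → ℕ → L, ∀ x ∈ A, x ≤ p ⊔ q → H x 1 = x ∧
      (∀ i, 1 ≤ i → ρ a + i < ρ (tp a A) → H x i ⋖ H x (i + 1)) ∧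
      (∀ i, 1 ≤ i → ρ a + i ≤ ρ (tp a A) → H x i ∈ Sp a A) ∧
      (∀ i, 1 ≤ i → ρ a + i < ρ (tp a A) → x ≤ H x i ∧ ¬ p ⊔ q ≤ H x i) := by
  classical
  set l := p ⊔ q with hl
  have hrl : ρ l = ρ a + 2 := rank_two hG hA hp hq hpq
  have hstep : ∀ x : L, ∃ y : L, x ∈ Sp a A → x ≠ tp a A → y ∈ A ∧ ¬ y ≤ x ∧ x ⋖ x ⊔ y ∧
      x ⊔ y ∈ Sp a A := by
    intro x
    by_cases h : x ∈ Sp a A ∧ x ≠ tp a A
    · obtain ⟨y, h1, h2, h3, h4⟩ := hB.ext a A hA x h.1 h.2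
      exact ⟨y, fun _ _ => ⟨h1, h2, h3, h4⟩⟩
    · exact ⟨x, fun h1 h2 => absurd ⟨h1, h2⟩ h⟩
  choose s hs using hstep
  let G : ℕ → L := fun j => Nat.rec l (fun _ g => g ⊔ s g) j
  have hG0 : G 0 = l := rfl
  have hG1 : ∀ j, G (j + 1) = G j ⊔ s (G j) := fun j => rfl
  have hlS : l ∈ Sp a A := by
    refine ⟨{p, q}, ?_, ?_⟩
    · intro x hx
      rcases hx with rfl | hx
      · exact hp
      · rw [Set.mem_singleton_iff.1 hx]; exact hq
    · rw [sSup_pair, sup_eq_right.2]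
      exact (hA p hp).le.trans le_sup_left
  have key : ∀ j, ρ a + 2 + j ≤ ρ (tp a A) → G j ∈ Sp a A ∧ l ≤ G j ∧ ρ (G j) = ρ a + 2 + j := by
    intro j
    induction j with
    | zero => intro _; exact ⟨hlS, le_rfl, hrl⟩
    | succ j ih =>
      intro hj
      obtain ⟨k1, k2, k3⟩ := ih (by omega)
      have hne : G j ≠ tp a A := by
        intro h
        rw [h] at k3
        omega
      obtain ⟨m1, m2, m3, m4⟩ := hs (G j) k1 hne
      rw [hG1]
      refine ⟨m4, k2.trans le_sup_left, ?_⟩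
      rw [hG.cov _ _ m3, k3]
      omega
  have keys : ∀ j, ρ a + 2 + j < ρ (tp a A) → s (G j) ∈ A ∧ ¬ s (G j) ≤ G j := by
    intro j hj
    obtain ⟨k1, k2, k3⟩ := key j hj.le
    have hne : G j ≠ tp a A := by
      intro h
      rw [h] at k3
      omega
    obtain ⟨m1, m2, m3, m4⟩ := hs (G j) k1 hne
    exact ⟨m1, m2⟩
  let y : ℕ → L := fun j => s (G j)
  have hH : ∀ x ∈ A, x ≤ l → ∀ j, ρ a + 2 + j ≤ ρ (tp a A) →
      Hc y x j ∈ Sp a A ∧ l ⊔ Hc y x j = G j ∧ ρ (Hc y x j) = ρ a + 1 + j ∧ x ≤ Hc y x j := by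
    intro x hx hxl j
    induction j with
    | zero =>
      intro _
      refine ⟨hB.point a A hA x hx, ?_, ?_, le_rfl⟩
      · show l ⊔ x = l
        exact sup_eq_left.2 hxl
      · show ρ x = ρ a + 1 + 0
        rw [hG.cov _ _ (hA x hx)]
    | succ j ih =>
      intro hj
      obtain ⟨k1, k2, k3, k4⟩ := ih (by omega)
      obtain ⟨m1, m2⟩ := keys j (by omega)
      have h5 : ¬ y j ≤ Hc y x j := fun h => m2 (h.trans (le_sup_right.trans k2.le))
      have h6 : a ≤ Hc y x j := (hB.le_tp a A _ k1).1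
      have h7 := hG.cov _ _ (hG.semi a (y j) (Hc y x j) (hA _ m1) h6 h5)
      refine ⟨?_, ?_, ?_, k4.trans le_sup_left⟩
      · obtain ⟨W, hW, hW2⟩ := k1
        refine ⟨insert (y j) W, Set.insert_subset m1 hW, ?_⟩
        show Hc y x j ⊔ y j = _
        rw [hW2, sSup_insert, sup_comm (y j), ← sup_assoc]
      · show l ⊔ (Hc y x j ⊔ y j) = _
        rw [← sup_assoc, k2, hG1]
      · show ρ (Hc y x j ⊔ y j) = _
        rw [h7, k3]
        omega
  have hnl : ∀ x ∈ A, x ≤ l → ∀ j, ρ a + 2 + j ≤ ρ (tp a A) → ¬ l ≤ Hc y x j := by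
    intro x hx hxl j hj h
    obtain ⟨k1, k2, k3, k4⟩ := hH x hx hxl j hj
    obtain ⟨m1, m2, m3⟩ := key j hj
    rw [sup_eq_right.2 h] at k2
    rw [k2, m3] at k3
    omega
  refine ⟨fun x i => if ρ a + i < ρ (tp a A) then Hc y x (i - 1) else tp a A, fun x hx hxl => ?_⟩
  refine ⟨?_, ?_, ?_, ?_⟩
  · show (if ρ a + 1 < ρ (tp a A) then Hc y x (1 - 1) else tp a A) = x
    rw [if_pos (by omega)]
    rfl
  · intro i hi hlt
    show (if ρ a + i < ρ (tp a A) then Hc y x (i - 1) else tp a A) ⋖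
      (if ρ a + (i + 1) < ρ (tp a A) then Hc y x (i + 1 - 1) else tp a A)
    rw [if_pos hlt]
    obtain ⟨j, rfl⟩ : ∃ j, i = j + 1 := ⟨i - 1, by omega⟩
    simp only [Nat.add_sub_cancel]
    obtain ⟨k1, k2, k3, k4⟩ := hH x hx hxl j (by omega)
    split_ifs with h
    · obtain ⟨m1, m2⟩ := keys j (by omega)
      have h5 : ¬ y j ≤ Hc y x j := fun h => m2 (h.trans (le_sup_right.trans k2.le))
      exact hG.semi a (y j) (Hc y x j) (hA _ m1) (hB.le_tp a A _ k1).1 h5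
    · refine covby_of_rank hG (lt_of_le_of_ne (hB.le_tp a A _ k1).2 ?_) ?_
      · intro h
        rw [h] at k3
        omega
      · rw [k3]
        omega
  · intro i hi hle
    show (if ρ a + i < ρ (tp a A) then Hc y x (i - 1) else tp a A) ∈ Sp a A
    split_ifs with h
    · exact (hH x hx hxl (i - 1) (by omega)).1
    · exact ⟨A, subset_rfl, rfl⟩
  · intro i hi hlt
    show x ≤ (if ρ a + i < ρ (tp a A) then Hc y x (i - 1) else tp a A) ∧
      ¬ l ≤ (if ρ a + i < ρ (tp a A) then Hc y x (i - 1) else tp a A)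
    rw [if_pos hlt]
    exact ⟨(hH x hx hxl (i - 1) (by omega)).2.2.2, hnl x hx hxl (i - 1) (by omega)⟩

/-- a flat that contains a point `x` of the line outside of `E`, but not the line, is not spanned by
points of `E` -/
theorem off_E (hG : Geo L ρ) (hB : Base L ρ) {a : L} {A : Set L} (hA : ∀ p ∈ A, a ⋖ p) {p q : L}
    (hp : p ∈ A) (hq : q ∈ A) (hpq : p ≠ q) {x : L} (hx : x ∈ A) (hxl : x ≤ p ⊔ q)
    (hxE : x ∉ EE a A p q) {b : L} (hxb : x ≤ b) (hlb : ¬ p ⊔ q ≤ b) : b ∉ Sp a (EE a A p q) := by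
  rintro ⟨W, hW, hbW⟩
  have hWY : W ⊆ YY A (p ⊔ q) := by
    intro w hw
    have hwA : w ∈ A := EE_sub hp hq (hW hw)
    refine ⟨hwA, fun hwl => hlb ?_⟩
    have hne : x ≠ w := by
      rintro rfl
      exact hxE (hW hw)
    rw [← two_points hG hA hp hq hpq hx hwA hne hxl hwl]
    refine sup_le hxb ?_
    rw [hbW]
    exact le_sup_of_le_right (le_sSup hw)
  obtain ⟨F, hF, hFW⟩ := hB.fin a A hA W (fun w hw => (hWY hw).1)
  refine hxE (Or.inl (Or.inr ⟨hx, hxl, F, hF.trans hWY, ?_, ?_⟩))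
  · rw [hFW, ← hbW]; exact hxb
  · rw [hFW, ← hbW]; exact hlb

/-- **Gluing.** -/
theorem glue (hG : Geo L ρ) (hB : Base L ρ) {a : L} {A : Set L} (hA : ∀ p ∈ A, a ⋖ p)
    (h3 : ρ a + 3 ≤ ρ (tp a A)) {p q : L} (hp : p ∈ A) (hq : q ∈ A) (hpq : p ≠ q)
    (hE : T ρ a (EE a A p q)) : T ρ a A := by
  classical
  obtain ⟨f, hf⟩ := hE
  obtain ⟨H, hH⟩ := exH hG hB hA h3 hp hq hpq
  rw [tp_EE hp hq] at hf
  have hl : ∀ x ∈ A, x ∉ EE a A p q → x ≤ p ⊔ q := by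
    intro x hx hxE
    by_contra h
    exact hxE (Or.inl (Or.inl ⟨hx, h⟩))
  refine ⟨fun x i => if x ∈ EE a A p q then f x i else H x i, fun x hx => ?_⟩
  by_cases hxE : x ∈ EE a A p q
  · obtain ⟨k1, k2, k3, k4⟩ := hf x hxE
    simp only [if_pos hxE]
    refine ⟨k1, k2, fun i h1 h2 => Sp_mono (EE_sub hp hq) (k3 i h1 h2), ?_⟩
    intro z hz i h1 h2 h
    by_cases hzE : z ∈ EE a A p q
    · rw [if_pos hzE] at h
      exact k4 z hzE i h1 h2 h
    · rw [if_neg hzE] at h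
      exfalso
      obtain ⟨m1, m2, m3, m4⟩ := hH z hz (hl z hz hzE)
      refine off_E hG hB hA hp hq hpq hz (hl z hz hzE) hzE (m4 i h1 h2).1 (m4 i h1 h2).2 ?_
      rw [← h]
      exact k3 i h1 h2.le
  · obtain ⟨m1, m2, m3, m4⟩ := hH x hx (hl x hx hxE)
    simp only [if_neg hxE]
    refine ⟨m1, m2, m3, ?_⟩
    intro z hz i h1 h2 h
    by_cases hzE : z ∈ EE a A p q
    · rw [if_pos hzE] at h
      exfalso
      refine off_E hG hB hA hp hq hpq hx (hl x hx hxE) hxE (m4 i h1 h2).1 (m4 i h1 h2).2 ?_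
      rw [h]
      exact (hf z hzE).2.2.1 i h1 h2.le
    · rw [if_neg hzE] at h
      by_contra hne
      obtain ⟨n1, n2, n3, n4⟩ := hH z hz (hl z hz hzE)
      refine (m4 i h1 h2).2 ?_
      rw [← two_points hG hA hp hq hpq hx hz hne (hl x hx hxE) (hl z hz hzE)]
      refine sup_le (m4 i h1 h2).1 ?_
      rw [h]
      exact (n4 i h1 h2).1

end Pool.Agent.K7.H56.GL
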